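import Pool.Agent.Helper69.QC.St2

/-! # Project QD, part C: mean cost of the middle path (MCC) -/

open Complex MeasureTheory Set Filter Topology Metric
open scoped Real ENNReal

namespace Pool.Agent.Helper41.QC

open Pool.Agent.Helper35.PM Pool.Agent.Helper69.QC

/-- Cauchy-Schwarz for the mean over `[0, 2π]`. -/
theorem mccCS (f : ℝ → ℝ) (hf : Continuous f) (C : ℝ)
    (hC : (2 * π)⁻¹ * ∫ θ in (0 : ℝ)..(2 * π), f θ ^ 2 ≤ C) :
    (2 * π)⁻¹ * ∫ θ in (0 : ℝ)..(2 * π), f θ ≤ Real.sqrt C := by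
  have hpi : 0 < 2 * π := by positivity
  have hf2 : Continuous (fun θ => f θ ^ 2) := hf.pow 2
  set m : ℝ := (2 * π)⁻¹ * ∫ θ in (0 : ℝ)..(2 * π), f θ with hm
  have h1 : ∫ θ in (0 : ℝ)..(2 * π), 2 * m * f θ ≤
      ∫ θ in (0 : ℝ)..(2 * π), (f θ ^ 2 + m ^ 2) := by
    apply intervalIntegral.integral_mono_on hpi.le
    · exact (continuous_const.mul hf).intervalIntegrable _ _
    · exact (hf2.add continuous_const).intervalIntegrable _ _
    · intro x _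
      nlinarith [sq_nonneg (f x - m)]
  rw [intervalIntegral.integral_const_mul,
    intervalIntegral.integral_add (hf2.intervalIntegrable _ _)
      (continuous_const.intervalIntegrable _ _), intervalIntegral.integral_const] at h1
  have h2 : (2 * π)⁻¹ * (2 * m * ∫ θ in (0 : ℝ)..(2 * π), f θ) ≤
      (2 * π)⁻¹ * ((∫ θ in (0 : ℝ)..(2 * π), f θ ^ 2) + (2 * π - 0) • m ^ 2) :=
    mul_le_mul_of_nonneg_left h1 (inv_nonneg.2 hpi.le)
  have h3 : (2 * π)⁻¹ * (2 * m * ∫ θ in (0 : ℝ)..(2 * π), f θ) = 2 * m * m := by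
    rw [hm]; ring
  have h4 : (2 * π)⁻¹ * ((∫ θ in (0 : ℝ)..(2 * π), f θ ^ 2) + (2 * π - 0) • m ^ 2) =
      (2 * π)⁻¹ * (∫ θ in (0 : ℝ)..(2 * π), f θ ^ 2) + m ^ 2 := by
    rw [smul_eq_mul, sub_zero]
    field_simp
  rw [h3, h4] at h2
  apply Real.le_sqrt_of_sq_le
  nlinarith

theorem mccCost (S a b : ℝ) (hS : 0 ≤ S) (ha : 0 ≤ a) (hb : 0 ≤ b) :
    Real.sqrt (S * (S + a + b) / 2) ≤ S + (a + b) := by
  apply Real.sqrt_le_iff.2
  refine ⟨by positivity, ?_⟩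
  nlinarith [mul_nonneg hS ha, mul_nonneg hS hb, mul_nonneg ha hb, mul_nonneg hS hS,
    mul_nonneg ha ha, mul_nonneg hb hb]

/-- The analytic part of the statement. -/
theorem mccMain (ψ : ℝ → ℝ → ℝ) (hψ : Continuous (fun p : ℝ × ℝ => ψ p.1 p.2))
    (h0 : ∀ θ t, 0 ≤ ψ θ t) (C L : ℝ) (hL : 0 ≤ L)
    (hC : ∀ t, (2 * π)⁻¹ * ∫ θ in (0 : ℝ)..(2 * π), ψ θ t ^ 2 ≤ C) :
    (2 * π)⁻¹ * ∫ θ in (0 : ℝ)..(2 * π), Real.sqrt ((∫ t in (0 : ℝ)..L, ψ θ t) *
      ((∫ t in (0 : ℝ)..L, ψ θ t) + ψ θ 0 + ψ θ L) / 2) ≤ (L + 2) * Real.sqrt C := by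
  have hpi : 0 < 2 * π := by positivity
  have hc : ∀ t, Continuous (fun θ => ψ θ t) := fun t =>
    hψ.comp (Continuous.prodMk continuous_id (continuous_const (y := t)))
  have hm : ∀ t, (2 * π)⁻¹ * ∫ θ in (0 : ℝ)..(2 * π), ψ θ t ≤ Real.sqrt C := fun t =>
    mccCS (fun θ => ψ θ t) (hc t) C (hC t)
  have hSc : Continuous (fun θ : ℝ => ∫ t in (0 : ℝ)..L, ψ θ t) :=
    intervalIntegral.continuous_parametric_intervalIntegral_of_continuous' hψ 0 L
  have hMc : Continuous (fun t : ℝ => ∫ θ in (0 : ℝ)..(2 * π), ψ θ t) := by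
    have hψ' : Continuous (fun p : ℝ × ℝ => ψ p.2 p.1) := hψ.comp continuous_swap
    exact intervalIntegral.continuous_parametric_intervalIntegral_of_continuous'
      (f := fun t θ => ψ θ t) hψ' 0 (2 * π)
  have h1 : ∫ θ in (0 : ℝ)..(2 * π), Real.sqrt ((∫ t in (0 : ℝ)..L, ψ θ t) *
      ((∫ t in (0 : ℝ)..L, ψ θ t) + ψ θ 0 + ψ θ L) / 2) ≤
      ∫ θ in (0 : ℝ)..(2 * π), ((∫ t in (0 : ℝ)..L, ψ θ t) + (ψ θ 0 + ψ θ L)) := by
    apply intervalIntegral.integral_mono_on hpi.le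
    · exact (Pool.Agent.Helper35.PQFJC.param ψ hψ L).intervalIntegrable _ _
    · exact (hSc.add ((hc 0).add (hc L))).intervalIntegrable _ _
    · intro θ _
      exact mccCost _ _ _ (intervalIntegral.integral_nonneg hL (fun t _ => h0 θ t))
        (h0 θ 0) (h0 θ L)
  have h2 : ∫ θ in (0 : ℝ)..(2 * π), ((∫ t in (0 : ℝ)..L, ψ θ t) + (ψ θ 0 + ψ θ L)) =
      (∫ t in (0 : ℝ)..L, ∫ θ in (0 : ℝ)..(2 * π), ψ θ t) +
        ((∫ θ in (0 : ℝ)..(2 * π), ψ θ 0) + ∫ θ in (0 : ℝ)..(2 * π), ψ θ L) := by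
    have hb : Continuous (fun θ => ψ θ 0 + ψ θ L) := (hc 0).add (hc L)
    rw [intervalIntegral.integral_add (hSc.intervalIntegrable _ _)
      (hb.intervalIntegrable _ _),
      intervalIntegral.integral_add ((hc 0).intervalIntegrable _ _)
      ((hc L).intervalIntegrable _ _)]
    congr 1
    apply intervalIntegral_intervalIntegral_swap
    apply (hψ.continuousOn (s := uIcc 0 (2 * π) ×ˢ uIcc 0 L)).integrableOn_compact
      (isCompact_uIcc.prod isCompact_uIcc) |>.mono_set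
    exact Set.prod_mono uIoc_subset_uIcc uIoc_subset_uIcc
  have h3 : (2 * π)⁻¹ * ∫ t in (0 : ℝ)..L, ∫ θ in (0 : ℝ)..(2 * π), ψ θ t ≤
      L * Real.sqrt C := by
    rw [← intervalIntegral.integral_const_mul]
    calc ∫ t in (0 : ℝ)..L, (2 * π)⁻¹ * ∫ θ in (0 : ℝ)..(2 * π), ψ θ t
        ≤ ∫ t in (0 : ℝ)..L, Real.sqrt C := by
          apply intervalIntegral.integral_mono_on hL
          · exact (continuous_const.mul hMc).intervalIntegrable _ _
          · exact continuous_const.intervalIntegrable _ _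
          · intro t _
            exact hm t
      _ = L * Real.sqrt C := by
          rw [intervalIntegral.integral_const, smul_eq_mul, sub_zero]
  calc (2 * π)⁻¹ * ∫ θ in (0 : ℝ)..(2 * π), Real.sqrt ((∫ t in (0 : ℝ)..L, ψ θ t) *
      ((∫ t in (0 : ℝ)..L, ψ θ t) + ψ θ 0 + ψ θ L) / 2)
      ≤ (2 * π)⁻¹ * ((∫ t in (0 : ℝ)..L, ∫ θ in (0 : ℝ)..(2 * π), ψ θ t) +
        ((∫ θ in (0 : ℝ)..(2 * π), ψ θ 0) + ∫ θ in (0 : ℝ)..(2 * π), ψ θ L)) := by
        rw [← h2]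
        exact mul_le_mul_of_nonneg_left h1 (inv_nonneg.2 hpi.le)
    _ = (2 * π)⁻¹ * (∫ t in (0 : ℝ)..L, ∫ θ in (0 : ℝ)..(2 * π), ψ θ t) +
        ((2 * π)⁻¹ * (∫ θ in (0 : ℝ)..(2 * π), ψ θ 0) +
          (2 * π)⁻¹ * ∫ θ in (0 : ℝ)..(2 * π), ψ θ L) := by ring
    _ ≤ L * Real.sqrt C + (Real.sqrt C + Real.sqrt C) :=
        add_le_add h3 (add_le_add (hm 0) (hm L))
    _ = (L + 2) * Real.sqrt C := by ring

/-- The statement with the entropy replaced by a function of two real variables. -/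
theorem mccAbs (e : ℝ → ℝ → ℝ) (he : ∀ θ t, 0 < e θ t ∧ e θ t ≤ 2)
    (h2 : ∀ θ s t, 1 / e θ s ≤ Real.exp |s - t| * (1 / e θ t))
    (h3 : ∀ t, Continuous (fun θ => 1 / e θ t)) (B L : ℝ) (hL : 0 ≤ L)
    (hmd : ∀ t, (2 * π)⁻¹ * ∫ θ in (0 : ℝ)..(2 * π), ((2 - e θ t) / e θ t) ≤ B) :
    (2 * π)⁻¹ * ∫ θ in (0 : ℝ)..(2 * π), Real.sqrt ((∫ t in (0 : ℝ)..L, Real.sqrt (2 - e θ t)) *
      ((∫ t in (0 : ℝ)..L, Real.sqrt (2 - e θ t)) + Real.sqrt (2 - e θ 0) +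
        Real.sqrt (2 - e θ L)) / 2) ≤ (L + 2) * Real.sqrt (2 * B) := by
  have hpi : 0 < 2 * π := by positivity
  have hj : Continuous (fun p : ℝ × ℝ => 1 / e p.1 p.2) :=
    Pool.Agent.Helper35.PQFJC.joint (fun θ t => 1 / e θ t) h2 h3
  have hψ : Continuous (fun p : ℝ × ℝ => Real.sqrt (2 - e p.1 p.2)) := by
    have e' : (fun p : ℝ × ℝ => Real.sqrt (2 - e p.1 p.2)) =
        fun p : ℝ × ℝ => Real.sqrt (2 - 1 / (1 / e p.1 p.2)) := by
      funext p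
      simp only [one_div, inv_inv]
    rw [e']
    refine Real.continuous_sqrt.comp (continuous_const.sub (continuous_const.div hj ?_))
    intro p
    exact (one_div_pos.2 (he p.1 p.2).1).ne'
  refine mccMain (fun θ t => Real.sqrt (2 - e θ t)) hψ
    (fun θ t => Real.sqrt_nonneg _) (2 * B) L hL ?_
  intro t
  have hcv : Continuous (fun θ : ℝ => (2 - e θ t) / e θ t) := by
    have e' : (fun θ : ℝ => (2 - e θ t) / e θ t) = fun θ => 2 * (1 / e θ t) - 1 := by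
      funext θ
      have := (he θ t).1
      field_simp
    rw [e']
    exact (continuous_const.mul (h3 t)).sub continuous_const
  have hcψ : Continuous (fun θ : ℝ => Real.sqrt (2 - e θ t) ^ 2) :=
    (hψ.comp (Continuous.prodMk continuous_id (continuous_const (y := t)))).pow 2
  calc (2 * π)⁻¹ * ∫ θ in (0 : ℝ)..(2 * π), Real.sqrt (2 - e θ t) ^ 2
      ≤ (2 * π)⁻¹ * ∫ θ in (0 : ℝ)..(2 * π), 2 * ((2 - e θ t) / e θ t) := by
        refine mul_le_mul_of_nonneg_left ?_ (inv_nonneg.2 hpi.le)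
        apply intervalIntegral.integral_mono_on hpi.le
        · exact hcψ.intervalIntegrable _ _
        · exact (continuous_const.mul hcv).intervalIntegrable _ _
        · intro θ _
          obtain ⟨e0, e2⟩ := he θ t
          rw [Real.sq_sqrt (by linarith), mul_div_assoc', le_div_iff₀ e0]
          nlinarith
    _ = 2 * ((2 * π)⁻¹ * ∫ θ in (0 : ℝ)..(2 * π), ((2 - e θ t) / e θ t)) := by
        rw [intervalIntegral.integral_const_mul]; ring
    _ ≤ 2 * B := by linarith [hmd t]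

/-- MCC. -/
theorem cMCC (mvv : St_MVV) : St_MCC := by
  intro g hg U hU F hF1 hF2 B y L hB hy hL hmd
  have hpt : ∀ θ : ℝ, pt (-y) θ ∈ Metric.ball (0 : ℂ) 1 :=
    fun θ => Pool.Agent.Helper42.PM.dtpt_mem (by linarith) θ
  have hzt : ∀ t : ℝ, zt t ∈ Metric.ball (0 : ℂ) 1 := Pool.Agent.Helper42.PM.dtzt_mem
  have hptc : Continuous (fun θ : ℝ => pt (-y) θ) := by unfold pt; fun_prop
  have pot : ∀ f : ℂ → SurfaceGroup g →* SL, HolDisc f →
      Pot (fun z => 1 / ent (f z)) (fun p z => J (U (f p)) (f p) (f z)) := fun f hf =>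
    po_ (SurfaceGroup g) f U hf.1 (fun z hz => qf_ g hg (f z) (hf.2 z hz))
      (fun z hz => hU (f z) (hf.2 z hz))
  have h2 : ∀ θ s t, 1 / ent (F (zt s) (pt (-y) θ)) ≤
      Real.exp |s - t| * (1 / ent (F (zt t) (pt (-y) θ))) := fun θ s t =>
    (ge1_ _ _ (pot _ (hF2 _ (hpt θ)))).1 s t
  have h3 : ∀ t, Continuous (fun θ => 1 / ent (F (zt t) (pt (-y) θ))) := by
    intro t
    have hc := ra2_ _ _ (pot _ (hF1 (zt t) (hzt t)))
    exact hc.comp_continuous hptc hpt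
  have key := mccAbs (fun θ t => ent (F (zt t) (pt (-y) θ)))
    (fun θ t => (mvv g hg U hU (F (zt t)) (hF1 _ (hzt t))).2 _ (hpt θ)) h2 h3 B L hL
    (fun t => hmd (zt t) (hzt t))
  exact key

end Pool.Agent.Helper41.QC
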